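import Pool.Agent.H98.RFT.Targets3
import Pool.Agent.H20.RFZ.B2Mid

/-!
# Board `rft_modules` (`MP_057a7e_pr`), row B2: tubes along a chord

Adaptation of `Pool/Agent/H20/RFZ/B2.lean`.
-/

set_option autoImplicit false

open Filter Topology

namespace Pool.Agent.H13.RFT

open Pool.Agent.H98.RFC hiding pt
open Pool.Agent.H98.RFZ Pool.Agent.H98.RFT Pool.Agent.H20.RFZ

/-- size of a step along an open edge -/
lemma step_opn {R : ℕ} {ω : Finset (Site × Site)} (hω : ∀ e ∈ ω, e.2 - e.1 ∈ box R)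
    {a b : Site} {u : ℕ} (hu : 200 * R + 200 ≤ u) (h : opn ω a b) :
    ‖cc b - cc a‖ ≤ 0.0072 * u := by
  have key : ∀ c d : Site, d - c ∈ box R → ‖cc d - cc c‖ ≤ 0.0072 * u := by
    intro c d hb
    obtain ⟨h1, h2⟩ := mem_box'.1 hb
    have h1' : |((d - c).1 : ℝ)| ≤ R := by exact_mod_cast h1
    have h2' : |((d - c).2 : ℝ)| ≤ R := by exact_mod_cast h2
    have hur : (200 : ℝ) * R ≤ u := by
      have : 200 * R ≤ u := by omega
      exact_mod_cast this
    have hR : (0 : ℝ) ≤ R := Nat.cast_nonneg R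
    rw [← cc_sub]
    have h3 : ‖cc (d - c)‖ ^ 2 ≤ (0.0072 * u) ^ 2 := by
      rw [Complex.sq_norm, Complex.normSq_apply]
      simp only [cc]
      have e1 : ((d - c).1 : ℝ) * ((d - c).1 : ℝ) ≤ R * R := by
        rw [← abs_mul_abs_self ((d - c).1 : ℝ)]
        exact mul_le_mul h1' h1' (abs_nonneg _) hR
      have e2 : ((d - c).2 : ℝ) * ((d - c).2 : ℝ) ≤ R * R := by
        rw [← abs_mul_abs_self ((d - c).2 : ℝ)]
        exact mul_le_mul h2' h2' (abs_nonneg _) hR
      have e3 : (200 * (R : ℝ)) * (200 * R) ≤ u * u :=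
        mul_le_mul hur hur (by positivity) (by positivity)
      nlinarith
    exact (pow_le_pow_iff_left₀ (norm_nonneg _) (by positivity) two_ne_zero).1 h3
  rcases h with h | h
  · exact key a b (hω _ h)
  · rw [norm_sub_rev]
    exact key b a (hω _ h)

/-- the part of the statement for a single tube -/
lemma one_tube {R : ℕ} {M K' A' u : ℕ}
    {P e : ℂ} {a D : ℝ} (he : ‖e‖ = 1) (hM10 : 10 ≤ M) (hK : 2 ≤ K')
    (hKA : K' + 100 ≤ A') (hu : 200 * R + 200 ≤ u) (ha : 2 ≤ a) (haD : a + M + 50 ≤ D)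
    (Dd : Set Site) (ω : Finset (Site × Site)) (hω : ∀ e ∈ ω, e.2 - e.1 ∈ box R) (k : ℕ)
    (x : ℕ → Site) (hpath : OPath Dd ω k x)
    (hball : ∀ i, i ≤ k → x i ∈ eb 0 (8 * (A' * u)))
    (hX0 : ‖cc (x 0) - ((u : ℝ) : ℂ) * P‖ ≤ 0.7072 * u)
    (hXk : ‖cc (x k) - ((u : ℝ) : ℂ) * pt P e D‖ ≤ 0.7072 * u)
    (hnear : ∀ i, i ≤ k → nearSeg (x 0) (x k) (x i) ((u : ℝ) / 2)) :
    tube (sm u (rd (pt P e a))) (sm u (rd (pt P e a)) +
        sm u (rd (pt P e (a + M)) - rd (pt P e a))) (K' * u) ⊆ eb 0 (10 * (A' * u)) ∧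
    CrsT u (rd (pt P e (a + M)) - rd (pt P e a)) (sm u (rd (pt P e a))) Dd ω := by
  have hu0 : (0 : ℝ) < u := by
    have : 0 < u := by omega
    exact_mod_cast this
  have hMr : (10 : ℝ) ≤ M := by exact_mod_cast hM10
  have hMpos : (0 : ℝ) < M := by linarith
  have hKr : (2 : ℝ) ≤ K' := by exact_mod_cast hK
  have hKAr : (K' : ℝ) + 100 ≤ A' := by exact_mod_cast hKA
  have hD0 : 0 < D := by linarith
  have hend : cc (sm u (rd (pt P e a)) + sm u (rd (pt P e (a + M)) - rd (pt P e a))) =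
      ((u : ℝ) : ℂ) * cc (rd (pt P e (a + M))) := by
    rw [cc_add, cc_sm, cc_sm, cc_sub]
    ring
  have e0 : cc (0 : Site) = 0 := by apply Complex.ext <;> simp [cc]
  -- the coordinate along the line
  set s : ℕ → ℝ := fun i => ((cc (x i) / ((u : ℝ) : ℂ) - P) * (starRingEnd ℂ) e).re with hs
  have hline : ∀ i, i ≤ k → ‖cc (x i) - ((u : ℝ) : ℂ) * pt P e (s i)‖ ≤ 1.2072 * u := by
    intro i hi
    obtain ⟨t, h0, h1, h2⟩ := (near_iff (by positivity)).1 (hnear i hi)
    exact line_dist he hu0 h0 h1 hX0 hXk h2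
  have hstep : ∀ i, i < k → |s (i + 1) - s i| ≤ 0.0072 := fun i hi =>
    coord_step he hu0 (step_opn hω hu (hpath.2 i hi))
  have hs0 : s 0 ≤ 0.7072 := by
    have h1 : ‖cc (x 0) - ((u : ℝ) : ℂ) * pt P e 0‖ ≤ 0.7072 * u := by
      simpa [pt] using hX0
    have h2 := coord_near he hu0 h1
    rw [sub_zero] at h2
    exact (abs_le.1 h2).2
  have hsk : D - 0.7072 ≤ s k := by
    have h2 := (abs_le.1 (coord_near he hu0 hXk)).1
    simp only [hs]
    linarith
  have hnX : ∀ i, i ≤ k → ‖cc (x i)‖ ≤ 8 * ((A' : ℝ) * u) := by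
    intro i hi
    have h1 := mem_eb'.1 (hball i hi)
    rw [e0, sub_zero] at h1
    push_cast at h1
    exact h1
  have hPn : ‖P‖ ≤ 8 * A' + 0.7072 := norm_end hu0 (hnX 0 (Nat.zero_le k)) hX0
  have hP1n : ‖pt P e D‖ ≤ 8 * A' + 0.7072 := norm_end hu0 (hnX k le_rfl) hXk
  have hDc : (D : ℂ) ≠ 0 := by exact_mod_cast hD0.ne'
  have hptn : ∀ r : ℝ, 0 ≤ r → r ≤ D → ‖pt P e r‖ ≤ 8 * A' + 0.7072 := by
    intro r h0 h1
    have e1 : pt P e r = ((1 : ℂ) - ((r / D : ℝ) : ℂ)) * P + ((r / D : ℝ) : ℂ) * pt P e D := by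
      simp only [pt]
      push_cast
      field_simp
      ring
    rw [e1]
    exact conv_norm (by positivity) (by rw [div_le_one hD0]; exact h1) hPn hP1n
  obtain ⟨i₁, i₂, g1, g2, g3, g4, g5, g6, g7⟩ := crossing (s := s) (k := k) (a := a)
    (b := a + M) (δ := 0.0072) (by linarith) hstep (by linarith) (by linarith)
  have hseg : ∀ i, i₁ ≤ i → i ≤ i₂ →
      nearSeg (sm u (rd (pt P e a))) (sm u (rd (pt P e a)) +
        sm u (rd (pt P e (a + M)) - rd (pt P e a))) (x i) (2 * u) := by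
    intro i hi1 hi2
    rw [near_iff (by positivity)]
    obtain ⟨b1, b2⟩ := g7 i hi1 hi2
    obtain ⟨s', c1, c2, c3⟩ := clamp (by linarith) b1 b2
    refine ⟨(s' - a) / M, div_nonneg (by linarith) hMpos.le, ?_, ?_⟩
    · rw [div_le_one hMpos]; linarith
    · rw [hend, cc_sm]
      exact axis_dist he hu0 hMpos c1 c2 c3 (hline i (hi2.trans g2))
  have hsub : tube (sm u (rd (pt P e a))) (sm u (rd (pt P e a)) +
        sm u (rd (pt P e (a + M)) - rd (pt P e a))) (K' * u) ⊆
      eb 0 (10 * (A' * u)) := by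
    intro z hz
    rw [mem_tube'] at hz
    obtain ⟨r, r1, r2, r3⟩ := tube_coord hu0 (by positivity) hz
    have h1 := hptn r (by linarith) (by linarith)
    rw [mem_eb', e0, sub_zero]
    have h2 := norm_sub_norm_le (cc z) (((u : ℝ) : ℂ) * pt P e r)
    rw [norm_u hu0] at h2
    have h3 := mul_le_mul_of_nonneg_left h1 hu0.le
    rw [Nat.cast_mul] at r3
    have h4 : (K' : ℝ) + 2 ≤ 2 * A' := by linarith
    have h5 := mul_le_mul_of_nonneg_right h4 hu0.le
    have h6 : ‖cc z‖ ≤ 10 * ((A' : ℝ) * u) := by linarith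
    push_cast
    exact h6
  refine ⟨hsub, i₂ - i₁, fun j => x (i₁ + j), ⟨?_, ?_⟩, ?_, ?_, ?_⟩
  · intro j hj
    exact hpath.1 (i₁ + j) (by omega)
  · intro j hj
    exact hpath.2 (i₁ + j) (by omega)
  · intro j hj
    exact hseg _ (by omega) (by omega)
  · rw [mem_eb']
    have h1 := axis_dist (s' := a) he hu0 hMpos le_rfl (by linarith) (by
      rw [abs_le]; constructor <;> linarith) (hline i₁ (g1.trans g2))
    rw [sub_self, zero_div, Complex.ofReal_zero, zero_mul, add_zero] at h1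
    rw [cc_sm]
    push_cast
    push_cast at h1
    exact h1
  · rw [mem_eb']
    have h1 := axis_dist (s' := a + M) he hu0 hMpos (by linarith) le_rfl (by
      rw [abs_le]; constructor <;> linarith) (hline i₂ g2)
    have e1 : (a + M - a) / (M : ℝ) = 1 := by field_simp; ring
    rw [e1, Complex.ofReal_one, one_mul, add_sub_cancel] at h1
    have e2 : i₁ + (i₂ - i₁) = i₂ := by omega
    show ‖cc (x (i₁ + (i₂ - i₁))) - cc (sm u (rd (pt P e a)) +
      sm u (rd (pt P e (a + M)) - rd (pt P e a)))‖ ≤ _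
    rw [e2, hend]
    push_cast
    push_cast at h1
    exact h1

theorem pf_B2 : T_B2 := by
  intro R φ p M K' n A' u hφ hφ1 _hp hM hM10 hK hA hu P₀ P₁ _ _ hD
  have hu0 : (0 : ℝ) < u := by
    have : 0 < u := by omega
    exact_mod_cast this
  have hAr : (n : ℝ) * (M + 2 * K' + 10) + K' + 100 ≤ A' := by exact_mod_cast hA
  have hMr : (10 : ℝ) ≤ M := by exact_mod_cast hM10
  have hKr : (2 : ℝ) ≤ K' := by exact_mod_cast hK
  have hW : (0 : ℝ) ≤ (n : ℝ) * (M + 2 * K' + 10) := by positivity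
  set D : ℝ := ‖cc P₁ - cc P₀‖ with hDdef
  have hDA : (A' : ℝ) - 2 ≤ D := by
    have h1 : ((A' : ℝ) - 2) ^ 2 ≤ D ^ 2 := by
      have h2 : (((A' : ℤ) - 2 : ℤ) : ℝ) ^ 2 ≤ (nsq (P₁ - P₀) : ℝ) := by exact_mod_cast hD
      rw [nsq_eq, cc_sub] at h2
      push_cast at h2
      exact h2
    exact (pow_le_pow_iff_left₀ (by linarith) (norm_nonneg _) two_ne_zero).1 h1
  have hD0 : 0 < D := by linarith
  have hDc : (D : ℂ) ≠ 0 := by exact_mod_cast hD0.ne'
  set e : ℂ := (cc P₁ - cc P₀) / (D : ℂ) with hedef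
  have he : ‖e‖ = 1 := by
    rw [hedef, norm_div, Complex.norm_real, Real.norm_eq_abs, abs_of_pos hD0, ← hDdef]
    exact div_self hD0.ne'
  set P : ℂ := cc P₀ with hP
  have hP1 : cc P₁ = pt P e D := by
    simp only [pt]
    rw [hedef]
    field_simp
    ring
  set σ : ℕ → ℝ := fun m => 2 + m * (M + 2 * K' + 10) with hσ
  have hσ2 : ∀ m, 2 ≤ σ m := fun m => by
    simp only [hσ]
    have : (0 : ℝ) ≤ m * (M + 2 * K' + 10) := by positivity
    linarith
  have hσD : ∀ m, m < n → σ m + M + 50 ≤ D := by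
    intro m hm
    have h1 : (m : ℝ) + 1 ≤ n := by exact_mod_cast hm
    have h2 : ((m : ℝ) + 1) * (M + 2 * K' + 10) ≤ n * (M + 2 * K' + 10) :=
      mul_le_mul_of_nonneg_right h1 (by positivity)
    simp only [hσ]
    linarith
  have hv : ∀ m, ‖cc (rd (pt P e (σ m + M)) - rd (pt P e (σ m))) - ((M : ℝ) : ℂ) * e‖ ≤
      1.4144 := by
    intro m
    have e1 : cc (rd (pt P e (σ m + M)) - rd (pt P e (σ m))) - ((M : ℝ) : ℂ) * e =
        (cc (rd (pt P e (σ m + M))) - pt P e (σ m + M)) - (cc (rd (pt P e (σ m))) -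
          pt P e (σ m)) := by
      rw [cc_sub]
      simp only [pt]
      push_cast
      ring
    rw [e1]
    refine (norm_sub_le _ _).trans ?_
    have h1 := rd_bound (pt P e (σ m + M))
    have h2 := rd_bound (pt P e (σ m))
    linarith
  refine ⟨fun m => sm u (rd (pt P e (σ m))), fun m => rd (pt P e (σ m + M)) - rd (pt P e (σ m)),
    fun m => invm he hM10 (hv m), ?_, ?_⟩
  · -- the tubes are disjoint
    have key : ∀ m m' : ℕ, m < m' → ∀ z : Site,
        z ∈ tube (sm u (rd (pt P e (σ m)))) (sm u (rd (pt P e (σ m))) +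
          sm u (rd (pt P e (σ m + M)) - rd (pt P e (σ m)))) (K' * u) →
        z ∈ tube (sm u (rd (pt P e (σ m')))) (sm u (rd (pt P e (σ m'))) +
          sm u (rd (pt P e (σ m' + M)) - rd (pt P e (σ m')))) (K' * u) → False := by
      intro m m' hmm z hz hz'
      rw [mem_tube'] at hz hz'
      obtain ⟨s, s1, s2, s3⟩ := tube_coord hu0 (by positivity) hz
      obtain ⟨s', t1, t2, t3⟩ := tube_coord hu0 (by positivity) hz'
      have ec : (((K' * u : ℕ) : ℝ) + 0.7072 * u) = (u : ℝ) * (K' + 0.7072) := by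
        push_cast; ring
      rw [ec] at s3 t3
      have h3 := (abs_le.1 (near_both he hu0 s3 t3)).2
      have h4 : (m : ℝ) + 1 ≤ m' := by exact_mod_cast hmm
      have h5 : ((m : ℝ) + 1) * (M + 2 * K' + 10) ≤ m' * (M + 2 * K' + 10) :=
        mul_le_mul_of_nonneg_right h4 (by positivity)
      simp only [hσ] at s2 t1
      linarith
    intro m m' hne
    have hne' : (m : ℕ) ≠ (m' : ℕ) := fun h => hne (Fin.ext h)
    rw [Finset.disjoint_left]
    intro z hz hz'
    rcases Nat.lt_or_gt_of_ne hne' with h | h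
    · exact key m m' h z hz hz'
    · exact key m' m h z hz' hz
  · intro Dd ω hω k x hpath hball hdisp hx0 hxk hnear hang
    have hX0 := half_dist hx0
    have hXk := half_dist hxk
    rw [hP1] at hXk
    have hone := fun m : Fin n => one_tube he hM10 hK (by omega) hu (hσ2 m) (hσD m m.2)
      Dd ω hω k x hpath hball hX0 hXk hnear
    refine ⟨?_, fun m => (hone m).1, fun m => (hone m).2⟩
    · intro m
      rw [gdot_eq, fdet_eq]
      rw [gdot_eq, fdet_eq] at hang
      refine angle (X := cc (x k - x 0)) (D := D) (u := u) he hφ hφ1 ?_ ?_ hu0 ?_ (hv m) hang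
      · rw [div_le_iff₀ hφ] at hM
        linarith
      · have h1 := hσD m m.2
        have h2 := hσ2 m
        linarith
      · have e1 : cc (x k - x 0) - (((u : ℝ) * D : ℝ) : ℂ) * e =
            (cc (x k) - ((u : ℝ) : ℂ) * pt P e D) - (cc (x 0) - ((u : ℝ) : ℂ) * P) := by
          rw [cc_sub]
          simp only [pt]
          push_cast
          ring
        rw [e1]
        refine (norm_sub_le _ _).trans ?_
        linarith

end Pool.Agent.H13.RFT
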