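import Pool.Agent.H98.RFT.Targets3
import Pool.Agent.H98.RFC.Targets

/-!
# Board `rft_modules` (`MP_057a7e_pr`), row BM: bad cells

Adaptation of `Pool/Agent/H79/RFZ/BMEA.lean`.
-/

set_option autoImplicit false

noncomputable section

open MeasureTheory ProbabilityTheory

namespace Pool.Agent.H13.RFT

open Pool.Agent.H98.RFC Pool.Agent.H98.RFZ Pool.Agent.H98.RFT

lemma eb_iff (z x : Site) (r : ℕ) : x ∈ eb z r ↔ x - z ∈ eb 0 r := by
  unfold eb bx
  simp only [Finset.mem_filter, Finset.mem_product, Finset.mem_Icc, Prod.fst_sub, Prod.snd_sub,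
    Prod.fst_zero, Prod.snd_zero, sub_zero]
  constructor
  · rintro ⟨⟨⟨h1, h2⟩, h3, h4⟩, h5⟩
    exact ⟨⟨⟨by omega, by omega⟩, by omega, by omega⟩, h5⟩
  · rintro ⟨⟨⟨h1, h2⟩, h3, h4⟩, h5⟩
    exact ⟨⟨⟨by omega, by omega⟩, by omega, by omega⟩, h5⟩

lemma eb_image (z : Site) (r : ℕ) : eb z r = (eb 0 r).image (fun x => z + x) := by
  ext x
  rw [Finset.mem_image, eb_iff]
  constructor
  · intro h
    exact ⟨x - z, h, by abel⟩
  · rintro ⟨a, ha, rfl⟩
    rwa [add_sub_cancel_left]

lemma eb_sub (z : Site) {r r' : ℕ} (h : r ≤ r') : eb z r ⊆ eb z r' := by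
  intro x hx
  unfold eb bx at hx ⊢
  simp only [Finset.mem_filter, Finset.mem_product, Finset.mem_Icc] at hx ⊢
  obtain ⟨⟨⟨h1, h2⟩, h3, h4⟩, h5⟩ := hx
  refine ⟨⟨⟨by omega, by omega⟩, by omega, by omega⟩, h5.trans ?_⟩
  have h6 : (r : ℤ) ≤ r' := by exact_mod_cast h
  exact pow_le_pow_left₀ (Int.natCast_nonneg r) h6 2

/-- translation of an open edge -/
lemma opn_shift (z a b : Site) (ω : Finset (Site × Site)) :
    opn (ω.image (fun e => (z + e.1, z + e.2))) (z + a) (z + b) ↔ opn ω a b := by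
  have key : ∀ a b : Site,
      (z + a, z + b) ∈ ω.image (fun e => (z + e.1, z + e.2)) ↔ (a, b) ∈ ω := by
    intro a b
    rw [Finset.mem_image]
    constructor
    · rintro ⟨⟨c, d⟩, he, h⟩
      obtain ⟨h1, h2⟩ := Prod.mk.inj h
      rwa [← add_left_cancel h1, ← add_left_cancel h2]
    · intro h
      exact ⟨(a, b), h, rfl⟩
  unfold opn
  rw [key, key]

/-- translation of a bad cell -/
lemma bad_shift (N : Site → ℝ) (v : ℕ) (z : Site) (D : Set Site) (ω : Finset (Site × Site)) :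
    BadT N v z ((fun x => z + x) '' D) (ω.image (fun e => (z + e.1, z + e.2))) ↔
      BadT N v 0 D ω := by
  unfold BadT OPath
  constructor
  · rintro ⟨k, x, ⟨h1, h2⟩, h3, h4, h5, h6⟩
    refine ⟨k, fun i => x i - z, ⟨fun i hi => ?_, fun i hi => ?_⟩, fun i hi => ?_, ?_, ?_, ?_⟩
    · obtain ⟨a, ha, hx⟩ := h1 i hi
      have e : x i - z = a := by
        rw [← hx]
        exact add_sub_cancel_left z a
      simp only
      rw [e]
      exact ha
    · refine (opn_shift z _ _ ω).1 ?_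
      have e1 : z + (x i - z) = x i := by abel
      have e2 : z + (x (i + 1) - z) = x (i + 1) := by abel
      simp only
      rw [e1, e2]
      exact h2 i hi
    · exact (eb_iff z (x i) _).1 (h3 i hi)
    · exact (eb_iff z (x 0) _).1 h4
    · have e : (x k - z) - (x 0 - z) = x k - x 0 := by abel
      simp only
      rw [e]
      exact h5
    · have e : (x k - z) - (x 0 - z) = x k - x 0 := by abel
      simp only
      rw [e]
      exact h6
  · rintro ⟨k, x, ⟨h1, h2⟩, h3, h4, h5, h6⟩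
    refine ⟨k, fun i => z + x i, ⟨fun i hi => ?_, fun i hi => ?_⟩, fun i hi => ?_, ?_, ?_, ?_⟩
    · exact ⟨x i, h1 i hi, rfl⟩
    · exact (opn_shift z _ _ ω).2 (h2 i hi)
    · refine (eb_iff z (z + x i) _).2 ?_
      rw [add_sub_cancel_left]
      exact h3 i hi
    · refine (eb_iff z (z + x 0) _).2 ?_
      rw [add_sub_cancel_left]
      exact h4
    · have e : (z + x k) - (z + x 0) = x k - x 0 := by abel
      simp only
      rw [e]
      exact h5
    · have e : (z + x k) - (z + x 0) = x k - x 0 := by abel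
      simp only
      rw [e]
      exact h6

/-- invariance of the probabilities under translations -/
lemma PA_shift (hCNT : D_CNT) (hTRQ : D_TRQ) (hTRG : T_TRG) (R : ℕ) (J : Site → ℝ) (T ε : ℝ)
    (hT : 0 < T) (z : Site) (W : Finset Site) (A B : Set Site → Finset (Site × Site) → Prop)
    (hAB : ∀ D ω, A ((fun x => z + x) '' D) (ω.image (fun e => (z + e.1, z + e.2))) ↔ B D ω) :
    PA R J T ε (W.image (fun x => z + x)) A = PA R J T ε W B := by
  unfold PA
  have hcont : Continuous fun η : Site → ℝ => QP R J (fun x => ε * η x) T W B :=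
    ((hCNT R J T hT W).2.1 B).comp
      (continuous_pi fun x => continuous_const.mul (continuous_apply x))
  have hsh : Measurable (fun (η : Site → ℝ) (x : Site) => η (z + x)) :=
    measurable_pi_lambda _ fun x => measurable_pi_apply (z + x)
  have e : ∀ η : Site → ℝ, QP R J (fun x => ε * η x) T (W.image (fun x => z + x)) A =
      (fun η : Site → ℝ => QP R J (fun x => ε * η x) T W B) (fun x => η (z + x)) := by
    intro η
    rw [(hTRQ R J (fun x => ε * η x) T W z).1 A]
    have e2 : (fun D ω => A ((fun x => z + x) '' D)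
        (Finset.image (fun e => (z + e.1, z + e.2)) ω)) = B :=
      funext fun D => funext fun ω => propext (hAB D ω)
    rw [e2]
  simp only [e]
  have h := integral_map (μ := gam) hsh.aemeasurable
    (f := fun η : Site → ℝ => QP R J (fun x => ε * η x) T W B) hcont.aestronglyMeasurable
  rw [hTRG z] at h
  exact h.symm

/-- the probabilities are between `0` and `1` -/
lemma PA_bd (hQP : D_QP) {R : ℕ} {J : Site → ℝ} (hJ : IsCoupling R J) (T ε : ℝ) (hT : 0 < T)
    (W : Finset Site) (A : Set Site → Finset (Site × Site) → Prop) :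
    0 ≤ PA R J T ε W A ∧ PA R J T ε W A ≤ 1 := by
  have hprob : IsProbabilityMeasure gam := by unfold gam; infer_instance
  have hb := fun η : Site → ℝ => (hQP R J hJ (fun x => ε * η x) T hT W).1 A
  unfold PA
  refine ⟨integral_nonneg fun η => (hb η).1, ?_⟩
  have h := integral_mono_of_nonneg (μ := gam) (g := fun _ => (1 : ℝ))
    (Filter.Eventually.of_forall fun η => (hb η).1) (integrable_const 1)
    (Filter.Eventually.of_forall fun η => (hb η).2.1)
  simpa using h

theorem pf_BM (hCNT : D_CNT) (hTRQ : D_TRQ) (hQP : D_QP) (hTRG : T_TRG) : T_BM := by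
  intro R J hJ T ε hT N v z
  have hbd : 0 ≤ pBT R J T ε N v ∧ pBT R J T ε N v ≤ 1 := PA_bd hQP hJ T ε hT _ _
  refine ⟨?_, ?_, ?_, ?_, hbd.1, hbd.2⟩
  · rintro D D' ω hD ⟨k, x, ⟨h1, h2⟩, h3⟩
    exact ⟨k, x, ⟨fun i hi => hD (h1 i hi), h2⟩, h3⟩
  · rintro D ω ⟨k, x, ⟨h1, h2⟩, h3, h4⟩
    have h5 : ∀ i, i ≤ k → x i ∈ eb z (10 * v) := fun i hi =>
      eb_sub z (by omega) (h3 i hi)
    refine ⟨k, x, ⟨fun i hi => ⟨h1 i hi, Finset.mem_coe.2 (h5 i hi)⟩, fun i hi => ?_⟩, h3, h4⟩
    rcases h2 i hi with h | h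
    · exact Or.inl (Finset.mem_inter.2 ⟨h, Finset.mem_product.2
        ⟨h5 i hi.le, h5 (i + 1) hi⟩⟩)
    · exact Or.inr (Finset.mem_inter.2 ⟨h, Finset.mem_product.2
        ⟨h5 (i + 1) hi, h5 i hi.le⟩⟩)
  · rintro D ω ⟨k, x, ⟨h1, h2⟩, h3⟩
    exact ⟨k, x, ⟨h1, fun i hi => (h2 i hi).imp (fun h => (Finset.mem_inter.1 h).1)
      fun h => (Finset.mem_inter.1 h).1⟩, h3⟩
  · unfold pBT
    rw [eb_image]
    exact PA_shift hCNT hTRQ hTRG R J T ε hT z _ _ _ (bad_shift N v z)

end Pool.Agent.H13.RFT
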