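import Pool.Agent.H13.RFT.BM

/-!
# Board `rft_modules` (`MP_057a7e_pr`), row BZ: the price of a local cut
-/

set_option autoImplicit false

noncomputable section

open MeasureTheory ProbabilityTheory

namespace Pool.Agent.H13.RFT

open Pool.Agent.H98.RFC Pool.Agent.H98.RFZ Pool.Agent.H98.RFT

/-- translation -/
lemma bz_shift (hTRQ : D_TRQ) (R : ℕ) (J h : Site → ℝ) (T : ℝ) (u C : ℕ) (z : Site) :
    bz R J h T u C z = bz R J (fun x => h (z + x)) T u C 0 := by
  classical
  have hinj : Function.Injective (fun x : Site => z + x) := add_right_injective z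
  unfold bz
  congr 1
  rw [eb_image z (10 * u), eb_image z (5 * u), eb_image z (C * u),
    ← Finset.image_sdiff _ _ hinj, Finset.sum_image fun _ _ _ _ hab => hinj hab]
  exact Finset.sum_congr rfl fun x _ => (hTRQ R J h T (eb 0 (C * u)) z).2 x

lemma bz_cont (hCNT : D_CNT) (R : ℕ) (J : Site → ℝ) (T ε : ℝ) (hT : 0 < T) (u C : ℕ) (z : Site) :
    Continuous fun η : Site → ℝ => bz R J (fun x => ε * η x) T u C z := by
  unfold bz
  refine continuous_const.mul (continuous_finsetSum _ fun x _ => ?_)
  exact ((hCNT R J T hT _).2.2 x).comp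
    (continuous_pi fun x => continuous_const.mul (continuous_apply x))

theorem pf_BZ (hINF : D_INF) (hCNT : D_CNT) (hLOQ : D_LOQ) (hTRQ : D_TRQ) (hTRG : T_TRG) :
    R_BZ := by
  intro R J hJ T ε hT u C z hC
  have hm : ∀ z : Site, Measurable fun η : Site → ℝ => bz R J (fun x => ε * η x) T u C z :=
    fun z => (bz_cont hCNT R J T ε hT u C z).measurable
  have hsh : Measurable (fun (η : Site → ℝ) (x : Site) => η (z + x)) :=
    measurable_pi_lambda _ fun x => measurable_pi_apply (z + x)
  refine ⟨hm z, fun η => ?_, fun η η' h => ?_, fun c => ?_, fun c => ?_⟩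
  · unfold bz
    refine mul_nonneg (div_nonneg (mul_nonneg (Nat.cast_nonneg R) ?_) (Nat.cast_nonneg u))
      (Finset.sum_nonneg fun x hx => ?_)
    · unfold Jt
      exact Finset.sum_nonneg fun y _ => hJ.nonneg y
    · refine (((hINF R J hJ _ T hT).1 _ x ?_).2).1
      exact eb_sub z (Nat.mul_le_mul_right u (by omega)) (Finset.mem_sdiff.1 hx).1
  · unfold bz
    congr 1
    exact Finset.sum_congr rfl fun x _ =>
      (hLOQ R J _ _ T _ fun y hy => congrArg (fun t => ε * t) (h y hy)).2.2 x
  · have hset : {η : Site → ℝ | c < bz R J (fun x => ε * η x) T u C z} =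
        (fun (η : Site → ℝ) (x : Site) => η (z + x)) ⁻¹'
          {η : Site → ℝ | c < bz R J (fun x => ε * η x) T u C 0} := by
      ext η
      rw [Set.mem_preimage, Set.mem_ofPred_eq, Set.mem_ofPred_eq, bz_shift hTRQ]
    rw [hset, ← Measure.map_apply hsh (measurableSet_lt measurable_const (hm 0)), hTRG z]
  · have hset : {η : Site → ℝ | c ≤ bz R J (fun x => ε * η x) T u C z} =
        (fun (η : Site → ℝ) (x : Site) => η (z + x)) ⁻¹'
          {η : Site → ℝ | c ≤ bz R J (fun x => ε * η x) T u C 0} := by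
      ext η
      rw [Set.mem_preimage, Set.mem_ofPred_eq, Set.mem_ofPred_eq, bz_shift hTRQ]
    rw [hset, ← Measure.map_apply hsh (measurableSet_le measurable_const (hm 0)), hTRG z]

end Pool.Agent.H13.RFT
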